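import Mathlib

/-!
# Weak phase retrievable frames with `2n-2` vectors are not dense
-/

namespace Pool.Agent.Results.MP_e57dcf_an.WeakPRNotDense

open scoped BigOperators

/-- A frame with `m` vectors for Euclidean `n`-space. -/
def IsFrame {n m : ℕ} (f : Fin m → EuclideanSpace ℝ (Fin n)) : Prop :=
  ∃ A B : ℝ, 0 < A ∧ A ≤ B ∧ ∀ x : EuclideanSpace ℝ (Fin n),
    A * ‖x‖ ^ 2 ≤ ∑ i, |inner ℝ x (f i)| ^ 2 ∧ ∑ i, |inner ℝ x (f i)| ^ 2 ≤ B * ‖x‖ ^ 2

/-- Two vectors weakly have the same phase. -/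
def WeaklySamePhase {n : ℕ} (x y : EuclideanSpace ℝ (Fin n)) : Prop :=
  ∃ θ : ℝ, (θ = 1 ∨ θ = -1) ∧ ∀ k, x k * y k ≠ 0 → Real.sign (x k) = θ * Real.sign (y k)

/-- A family does weak phase retrieval. -/
def DoesWeakPR {n m : ℕ} (f : Fin m → EuclideanSpace ℝ (Fin n)) : Prop :=
  ∀ x y : EuclideanSpace ℝ (Fin n),
    (∀ i, |inner ℝ x (f i)| = |inner ℝ y (f i)|) → WeaklySamePhase x y

/-- The set of frames with `m` vectors for Euclidean `n`-space. -/
def Frames (n m : ℕ) : Set (Fin m → EuclideanSpace ℝ (Fin n)) := {f | IsFrame f}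

/-- The set of frames with `m` vectors for Euclidean `n`-space doing weak phase retrieval. -/
def WeakFrames (n m : ℕ) : Set (Fin m → EuclideanSpace ℝ (Fin n)) :=
  {f | IsFrame f ∧ DoesWeakPR f}

/-- The determinant with first row `z` and the other rows `X i`. -/
def cdet {N : ℕ} (X : Fin N → EuclideanSpace ℝ (Fin (N + 1))) (z : Fin (N + 1) → ℝ) : ℝ :=
  Matrix.det (Matrix.of (Fin.cons z (fun i k => X i k) : Fin (N + 1) → Fin (N + 1) → ℝ))

/-- The cofactor vector. -/
def cvec {N : ℕ} (X : Fin N → EuclideanSpace ℝ (Fin (N + 1))) : EuclideanSpace ℝ (Fin (N + 1)) :=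
  WithLp.toLp 2 (fun k => cdet X (Pi.single k 1))

theorem cdet_eq {N : ℕ} (X : Fin N → EuclideanSpace ℝ (Fin (N + 1))) (z : Fin (N + 1) → ℝ) :
    cdet X z = ∑ k, z k * cvec X k := by
  classical
  have hlin : ∀ z : Fin (N + 1) → ℝ, cdet X z =
      (Matrix.detRowAlternating (n := Fin (N + 1)) (R := ℝ)).toMultilinearMap.toLinearMap
        (Fin.cons 0 (fun i k => X i k)) 0 z := by
    intro z
    unfold cdet
    simp only [MultilinearMap.toLinearMap_apply]
    rw [Fin.update_cons_zero]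
    rfl
  rw [hlin]
  conv_lhs => rw [← Finset.univ_sum_single z]
  rw [map_sum]
  refine Finset.sum_congr rfl fun k _ => ?_
  have : (Pi.single k (z k) : Fin (N + 1) → ℝ) = z k • (Pi.single k (1 : ℝ)) := by
    rw [← Pi.single_smul]; simp
  rw [this, map_smul, ← hlin]
  simp [cvec]

theorem cdet_self {N : ℕ} (X : Fin N → EuclideanSpace ℝ (Fin (N + 1))) (i : Fin N) :
    cdet X (fun k => X i k) = 0 := by
  unfold cdet
  refine Matrix.det_zero_of_row_eq (i := 0) (j := i.succ) (by simp [Fin.ext_iff]) ?_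
  ext k
  simp

theorem inner_cvec {N : ℕ} (X : Fin N → EuclideanSpace ℝ (Fin (N + 1))) (i : Fin N) :
    inner ℝ (cvec X) (X i) = 0 := by
  have := cdet_self X i
  rw [cdet_eq] at this
  rw [PiLp.inner_apply]
  simpa [mul_comm] using this

/-- Real sign of numbers with negative product. -/
theorem no_common_phase {a b c d : ℝ} (h1 : 0 < a * b) (h2 : c * d < 0) (θ : ℝ)
    (hθ : θ = 1 ∨ θ = -1) (ha : Real.sign a = θ * Real.sign b)
    (hc : Real.sign c = θ * Real.sign d) : False := by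
  rcases mul_pos_iff.1 h1 with ⟨h, h'⟩ | ⟨h, h'⟩ <;>
  rcases mul_neg_iff.1 h2 with ⟨k, k'⟩ | ⟨k, k'⟩ <;>
  simp only [Real.sign_of_pos, Real.sign_of_neg, h, h', k, k'] at ha hc <;>
  rcases hθ with rfl | rfl <;> linarith

/-- The key algebraic fact: if the family does weak phase retrieval, then the cofactor vectors
of the two halves have proportional squares in any two coordinates. -/
theorem key {N : ℕ} (u v : EuclideanSpace ℝ (Fin (N + 1))) {m : ℕ}
    (f : Fin m → EuclideanSpace ℝ (Fin (N + 1)))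
    (h : ∀ i, inner ℝ u (f i) = 0 ∨ inner ℝ v (f i) = 0) (hf : DoesWeakPR f)
    (p q : Fin (N + 1)) : ¬ ((u q) ^ 2 * (v p) ^ 2 < (u p) ^ 2 * (v q) ^ 2) := by
  intro hlt
  set s : ℝ := Real.sqrt ((v p) ^ 2 + (v q) ^ 2) with hs
  set t : ℝ := Real.sqrt ((u p) ^ 2 + (u q) ^ 2) with ht
  have hs2 : s ^ 2 = (v p) ^ 2 + (v q) ^ 2 := Real.sq_sqrt (by positivity)
  have ht2 : t ^ 2 = (u p) ^ 2 + (u q) ^ 2 := Real.sq_sqrt (by positivity)
  obtain ⟨θ, hθ, H⟩ := hf (s • u + t • v) (s • u - t • v) (by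
    intro i
    rw [inner_add_left, inner_sub_left, inner_smul_left, inner_smul_left]
    rcases h i with h | h
    · rw [h]; simp
    · rw [h]; simp)
  have hp : 0 < (s • u + t • v) p * (s • u - t • v) p := by
    have : (s • u + t • v) p * (s • u - t • v) p = s ^ 2 * (u p) ^ 2 - t ^ 2 * (v p) ^ 2 := by
      simp only [PiLp.add_apply, PiLp.sub_apply, PiLp.smul_apply, smul_eq_mul]; ring
    rw [this, hs2, ht2]; nlinarith
  have hq : (s • u + t • v) q * (s • u - t • v) q < 0 := by
    have : (s • u + t • v) q * (s • u - t • v) q = s ^ 2 * (u q) ^ 2 - t ^ 2 * (v q) ^ 2 := by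
      simp only [PiLp.add_apply, PiLp.sub_apply, PiLp.smul_apply, smul_eq_mul]; ring
    rw [this, hs2, ht2]; nlinarith
  exact no_common_phase hp hq θ hθ (H p hp.ne') (H q hq.ne)

/-- The polynomial certificate. -/
def cert {N : ℕ} (p q : Fin (N + 1)) (f : Fin (N + N) → EuclideanSpace ℝ (Fin (N + 1))) : ℝ :=
  (cvec (fun i => f (Fin.castAdd N i)) p) ^ 2 * (cvec (fun i => f (Fin.natAdd N i)) q) ^ 2 -
    (cvec (fun i => f (Fin.castAdd N i)) q) ^ 2 * (cvec (fun i => f (Fin.natAdd N i)) p) ^ 2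

theorem cert_eq_zero {N : ℕ} (p q : Fin (N + 1))
    (f : Fin (N + N) → EuclideanSpace ℝ (Fin (N + 1))) (hf : DoesWeakPR f) :
    cert p q f = 0 := by
  have h : ∀ i, inner ℝ (cvec (fun i => f (Fin.castAdd N i))) (f i) = 0 ∨
      inner ℝ (cvec (fun i => f (Fin.natAdd N i))) (f i) = 0 := by
    intro i
    refine Fin.addCases (fun i => ?_) (fun i => ?_) i
    · left; exact inner_cvec (fun i => f (Fin.castAdd N i)) i
    · right; exact inner_cvec (fun i => f (Fin.natAdd N i)) i
  have h1 := key _ _ f h hf p q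
  have h2 := key _ _ f h hf q p
  unfold cert
  linarith

theorem entry_analytic {N : ℕ} (g : Fin N → Fin (N + N)) (k r c : Fin (N + 1)) :
    AnalyticOnNhd ℝ (fun f : Fin (N + N) → EuclideanSpace ℝ (Fin (N + 1)) =>
      (Fin.cons (Pi.single k 1) (fun i k => f (g i) k) : Fin (N + 1) → Fin (N + 1) → ℝ) r c)
      Set.univ := by
  refine Fin.cases ?_ (fun j => ?_) r
  · simp only [Fin.cons_zero]
    exact analyticOnNhd_const
  · simp only [Fin.cons_succ]
    have : (fun f : Fin (N + N) → EuclideanSpace ℝ (Fin (N + 1)) => f (g j) c) =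
        ((EuclideanSpace.proj c : EuclideanSpace ℝ (Fin (N + 1)) →L[ℝ] ℝ).comp
          (ContinuousLinearMap.proj (g j) :
            (Fin (N + N) → EuclideanSpace ℝ (Fin (N + 1))) →L[ℝ] _)) := by
      ext f; rfl
    rw [this]
    exact ContinuousLinearMap.analyticOnNhd _ _

theorem cert_analytic {N : ℕ} (p q : Fin (N + 1)) :
    AnalyticOnNhd ℝ (cert (N := N) p q) Set.univ := by
  have hco : ∀ (g : Fin N → Fin (N + N)) (k : Fin (N + 1)), AnalyticOnNhd ℝ
      (fun f : Fin (N + N) → EuclideanSpace ℝ (Fin (N + 1)) => cvec (fun i => f (g i)) k)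
      Set.univ := by
    intro g k
    simp only [cvec, cdet, Matrix.det_apply']
    refine Finset.analyticOnNhd_fun_sum _ fun σ _ => ?_
    refine AnalyticOnNhd.mul analyticOnNhd_const ?_
    refine Finset.analyticOnNhd_fun_prod _ fun i _ => ?_
    exact entry_analytic g k (σ i) i
  unfold cert
  exact (((hco _ _).pow 2).mul ((hco _ _).pow 2)).sub (((hco _ _).pow 2).mul ((hco _ _).pow 2))

/-- A concrete frame with non-zero certificate: `e_1, …, e_N` followed by
`e_0, e_2, …, e_N`. -/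
noncomputable def special (M : ℕ) : Fin ((M + 1) + (M + 1)) → EuclideanSpace ℝ (Fin (M + 1 + 1)) :=
  Fin.append (fun i : Fin (M + 1) => EuclideanSpace.single i.succ (1 : ℝ))
    (fun i : Fin (M + 1) => EuclideanSpace.single (Equiv.swap 0 1 i.succ) (1 : ℝ))

theorem cvec_first (M : ℕ) (k : Fin (M + 1 + 1)) :
    cvec (fun i : Fin (M + 1) => (EuclideanSpace.single i.succ (1 : ℝ) :
      EuclideanSpace ℝ (Fin (M + 1 + 1)))) k = if k = 0 then 1 else 0 := by
  have h : cvec (fun i : Fin (M + 1) => (EuclideanSpace.single i.succ (1 : ℝ) :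
      EuclideanSpace ℝ (Fin (M + 1 + 1)))) k = cdet (fun i : Fin (M + 1) =>
      (EuclideanSpace.single i.succ (1 : ℝ) : EuclideanSpace ℝ (Fin (M + 1 + 1))))
      (Pi.single k 1) := rfl
  rw [h]
  split_ifs with hk
  · subst hk
    unfold cdet
    have : (Matrix.of (Fin.cons (Pi.single 0 1) (fun i k => (EuclideanSpace.single i.succ (1 : ℝ) :
      EuclideanSpace ℝ (Fin (M + 1 + 1))) k) : Fin (M + 1 + 1) → Fin (M + 1 + 1) → ℝ)) = 1 := by
      ext r c
      refine Fin.cases ?_ (fun j => ?_) r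
      · simp [Matrix.one_apply, Pi.single_apply, eq_comm]
      · simp [Matrix.one_apply, Pi.single_apply, eq_comm]
    rw [this, Matrix.det_one]
  · obtain ⟨j, rfl⟩ := Fin.exists_succ_eq.2 hk
    unfold cdet
    refine Matrix.det_zero_of_row_eq (i := 0) (j := j.succ) (Fin.succ_ne_zero j).symm ?_
    ext c
    simp only [Matrix.of_apply, Fin.cons_zero, Fin.cons_succ]
    rfl

theorem cvec_second (M : ℕ) (k : Fin (M + 1 + 1)) :
    (cvec (fun i : Fin (M + 1) => (EuclideanSpace.single (Equiv.swap 0 1 i.succ) (1 : ℝ) :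
      EuclideanSpace ℝ (Fin (M + 1 + 1)))) k) ^ 2 = if k = 1 then 1 else 0 := by
  have h : cvec (fun i : Fin (M + 1) => (EuclideanSpace.single (Equiv.swap 0 1 i.succ) (1 : ℝ) :
      EuclideanSpace ℝ (Fin (M + 1 + 1)))) k = cdet (fun i : Fin (M + 1) =>
      (EuclideanSpace.single (Equiv.swap 0 1 i.succ) (1 : ℝ) : EuclideanSpace ℝ (Fin (M + 1 + 1))))
      (Pi.single k 1) := rfl
  rw [h]
  split_ifs with hk
  · subst hk
    unfold cdet
    have : (Matrix.of (Fin.cons (Pi.single 1 1) (fun i k =>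
      (EuclideanSpace.single (Equiv.swap 0 1 i.succ) (1 : ℝ) :
      EuclideanSpace ℝ (Fin (M + 1 + 1))) k) : Fin (M + 1 + 1) → Fin (M + 1 + 1) → ℝ)) =
        (Equiv.swap (0 : Fin (M + 1 + 1)) 1).toPEquiv.toMatrix := by
      ext r c
      refine Fin.cases ?_ (fun j => ?_) r
      · simp [PEquiv.toMatrix_apply, Pi.single_apply, eq_comm]
      · simp [PEquiv.toMatrix_apply, Pi.single_apply, eq_comm]
    rw [this]
    have := Matrix.det_permutation (Equiv.swap (0 : Fin (M + 1 + 1)) 1) (R := ℝ)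
    rw [this]
    simp [Equiv.Perm.sign_swap]
  · have : ∃ j : Fin (M + 1), k = Equiv.swap 0 1 j.succ := by
      have h1 : Equiv.swap 0 1 k ≠ 0 := by
        intro h
        apply hk
        have := congrArg (Equiv.swap (0 : Fin (M + 1 + 1)) 1) h
        simpa using this
      obtain ⟨j, hj⟩ := Fin.exists_succ_eq.2 h1
      exact ⟨j, by rw [hj]; simp⟩
    obtain ⟨j, hj⟩ := this
    unfold cdet
    have : Matrix.det (Matrix.of (Fin.cons (Pi.single k 1) (fun i k =>
      (EuclideanSpace.single (Equiv.swap 0 1 i.succ) (1 : ℝ) :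
      EuclideanSpace ℝ (Fin (M + 1 + 1))) k) : Fin (M + 1 + 1) → Fin (M + 1 + 1) → ℝ)) = 0 := by
      refine Matrix.det_zero_of_row_eq (i := 0) (j := j.succ) (Fin.succ_ne_zero j).symm ?_
      ext c
      rw [hj]
      simp only [Matrix.of_apply, Fin.cons_zero, Fin.cons_succ]
      rfl
    rw [this]; simp

theorem cert_special (M : ℕ) : cert 0 1 (special M) = 1 := by
  have h1 : (fun i => special M (Fin.castAdd (M + 1) i)) = (fun i : Fin (M + 1) =>
      (EuclideanSpace.single i.succ (1 : ℝ) : EuclideanSpace ℝ (Fin (M + 1 + 1)))) := by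
    funext i; simp [special]
  have h2 : (fun i => special M (Fin.natAdd (M + 1) i)) = (fun i : Fin (M + 1) =>
      (EuclideanSpace.single (Equiv.swap 0 1 i.succ) (1 : ℝ) :
        EuclideanSpace ℝ (Fin (M + 1 + 1)))) := by
    funext i; simp only [special, Fin.append_right]
  unfold cert
  rw [h1, h2, cvec_first, cvec_first, cvec_second, cvec_second]
  simp

theorem special_isFrame (M : ℕ) : IsFrame (special M) := by
  refine ⟨1, 2, one_pos, one_le_two, fun x => ?_⟩
  have hn : ‖x‖ ^ 2 = x 0 ^ 2 + ∑ i : Fin (M + 1), x i.succ ^ 2 := by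
    rw [EuclideanSpace.norm_sq_eq, Fin.sum_univ_succ]; simp
  have h1 : ∑ i : Fin (M + 1), x (Equiv.swap 0 1 i.succ) ^ 2 = ‖x‖ ^ 2 - x 1 ^ 2 := by
    have : ∑ k : Fin (M + 1 + 1), x (Equiv.swap 0 1 k) ^ 2 = ‖x‖ ^ 2 := by
      rw [Equiv.sum_comp (Equiv.swap (0 : Fin (M + 1 + 1)) 1) (fun k => x k ^ 2),
        EuclideanSpace.norm_sq_eq]
      simp
    rw [Fin.sum_univ_succ] at this
    simp only [Equiv.swap_apply_left] at this
    linarith
  have hsum : ∑ i, |inner ℝ x (special M i)| ^ 2 =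
      ∑ i : Fin (M + 1), x i.succ ^ 2 + ∑ i : Fin (M + 1), x (Equiv.swap 0 1 i.succ) ^ 2 := by
    rw [Fin.sum_univ_add]
    simp only [special, Fin.append_right, Fin.append_left]
    simp [EuclideanSpace.inner_single_right]
  have h0 : x 0 ^ 2 ≤ ∑ i : Fin (M + 1), x (Equiv.swap 0 1 i.succ) ^ 2 := by
    have := Finset.single_le_sum (f := fun i : Fin (M + 1) => x (Equiv.swap 0 1 i.succ) ^ 2)
      (fun i _ => sq_nonneg _) (Finset.mem_univ 0)
    simpa using this
  rw [hsum]
  constructor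
  · rw [hn]; linarith
  · rw [h1]
    have h3 := sq_nonneg (x 0)
    have h4 := sq_nonneg (x 1)
    linarith

/-- **Weak phase retrieval frames with `2n-2` vectors are never dense**: for every `n ≥ 2`, the
set of frames with `2n-2` vectors doing weak phase retrieval is nowhere dense, and it is not dense
in the set of all frames with `2n-2` vectors. -/
theorem result : ∀ n : ℕ, 2 ≤ n → IsNowhereDense (WeakFrames n (2 * n - 2)) ∧
    ¬ (Frames n (2 * n - 2) ⊆ closure (WeakFrames n (2 * n - 2))) := by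
  intro n hn
  obtain ⟨M, rfl⟩ : ∃ M, n = M + 1 + 1 := ⟨n - 2, by omega⟩
  have hm : 2 * (M + 1 + 1) - 2 = (M + 1) + (M + 1) := by omega
  rw [hm]
  have hcont : Continuous (cert (N := M + 1) 0 1) := by
    have := (cert_analytic (N := M + 1) 0 1).continuousOn
    rwa [continuousOn_univ] at this
  have hsub : closure (WeakFrames (M + 1 + 1) ((M + 1) + (M + 1))) ⊆
      {f | cert (N := M + 1) 0 1 f = 0} := by
    refine closure_minimal (fun f hf => cert_eq_zero 0 1 f hf.2) ?_
    exact isClosed_eq hcont continuous_const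
  refine ⟨?_, ?_⟩
  · rw [IsNowhereDense, Set.eq_empty_iff_forall_notMem]
    intro f hf
    have hev : cert (N := M + 1) 0 1 =ᶠ[nhds f] 0 := by
      have : interior (closure (WeakFrames (M + 1 + 1) ((M + 1) + (M + 1)))) ∈ nhds f :=
        isOpen_interior.mem_nhds hf
      filter_upwards [this] with g hg
      exact hsub (interior_subset hg)
    have := (cert_analytic (N := M + 1) 0 1).eqOn_zero_of_preconnected_of_eventuallyEq_zero
      isPreconnected_univ (Set.mem_univ f) hev (Set.mem_univ (special M))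
    rw [cert_special] at this
    simp at this
  · intro h
    have := hsub (h (special_isFrame M))
    have h1 : cert 0 1 (special M) = 0 := this
    rw [cert_special] at h1
    simp at h1

end Pool.Agent.Results.MP_e57dcf_an.WeakPRNotDense
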